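import Pool.Agent.TH768.DG.Field

/-!
# Common linear recurrences of the binary digits of `√2` and of other algebraic numbers

The definitions are in `Pool.Agent.TH768.DG.Main`: `digit`, `CommonRecurrence` (the first `L` terms
of `n` sequences satisfy one linear recurrence of order `m` with the same rational coefficients for
all the sequences), `commonOrder b x k L` (the least order of a common recurrence for the first
`L` digits of `x_1, …, x_n` in base `b`, after changes in at most `k` places). For `n` random
sequences of digits it is about `n / (n + 1) * L` for `k = 0`.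

If `1, x_1, …, x_n` is a basis of a real number field (for example `1, √2, √3, √6`), then it has this
value up to `o(L)`. In particular the binary digits of `√2` and of the other powers of `2 ^ (1/(2m))`
between `1` and `2` have no common linear recurrence of order smaller than `(1 - 1/(2m) - ε) L`. As
`m` grows this comes near to the trivial upper bound `L`, although each of these digit sequences
satisfies a recurrence of order about `L / 2`: the digits of these numbers, `√2` among them, look
independent of each other to linear recurrences.

No hypothesis is assumed. The lower bound holds for all `b`, `k`, `L` at once with an explicit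
shape of the error term, and with errors in at most `k` places.

Proof. A common recurrence of order `m` gives by Siegel's lemma a common recurrence of slightly
larger order with small integer coefficients, and hence simultaneous rational approximations of the
`x_j` (starting files `Pool.Agent.W47.JL`, there used for one number only). Liouville's inequality
for linear forms (`Pool.Agent.W472.AC.field_measL`) is turned into a bound for simultaneous
approximations (transference). For the upper bound the dual system of linear equations is shown to
be regular.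
-/

set_option autoImplicit false

namespace Pool.Agent.Results.MP_0308e6_nt.CommonRecurrenceFields

open Finset Module Pool.Agent.TH768.DG

/-- (1) Let `K` be a real number field of degree `n + 1 ≥ 2` and `x_1, …, x_n` elements of `K` such
that `1, x_1, …, x_n` are linearly independent over `ℚ`.
For every `ε > 0` there is `L₀` such that for all `L ≥ L₀` and all bases `b ≥ 2` the least order of
a common linear recurrence over `ℚ` of the first `L` digits of `x_1, …, x_n` differs from
`n / (n + 1) * L` by at most `ε L`. There is `C > 0` such that for all bases `b ≥ 2`, all `k` and all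
`L` the least order `E` of a common linear recurrence after changes in at most `k` places satisfies
`L ≤ (n + 1) ((1 + 1/n)^(k+1) - 1) (E + C √((E + 1) log (E + 2)))`.

(2) In particular, for every `m ≥ 1` and `ε > 0` and all large `L`, the least order of a common
linear recurrence of the first `L` binary digits of the `2 m - 1` numbers `2 ^ (j/(2m))`,
`1 ≤ j ≤ 2 m - 1` (for `j = m` this number is `√2`), differs from `(1 - 1/(2m)) L` by at most
`ε L`. -/
theorem result :
    (∀ (K : IntermediateField ℚ ℝ) (n : ℕ) (x : Fin n → ℝ), FiniteDimensional ℚ K →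
      finrank ℚ K = n + 1 → 1 ≤ n → (∀ s, x s ∈ K) →
      LinearIndependent ℚ (Fin.cons 1 x : Fin (n + 1) → ℝ) →
      (∀ ε : ℝ, 0 < ε → ∃ L₀ : ℕ, ∀ L : ℕ, L₀ ≤ L → ∀ b : ℕ, 2 ≤ b →
        |(commonOrder b x 0 L : ℝ) - n / ((n : ℝ) + 1) * L| ≤ ε * L) ∧
      (∃ C : ℝ, 0 < C ∧ ∀ b : ℕ, 2 ≤ b → ∀ k L : ℕ,
        (L : ℝ) ≤ ((n : ℝ) + 1) * ((1 + 1 / n) ^ (k + 1) - 1) *
          (commonOrder b x k L + C * Real.sqrt (((commonOrder b x k L : ℝ) + 1) *
            Real.log ((commonOrder b x k L : ℝ) + 2))))) ∧
    (∀ (m : ℕ), 1 ≤ m → (((2 : ℝ) ^ (1 / (2 * (m : ℝ)))) ^ m = Real.sqrt 2) ∧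
      ∀ ε : ℝ, 0 < ε → ∃ L₀ : ℕ, ∀ L : ℕ, L₀ ≤ L →
        |(commonOrder 2 (fun j : Fin (2 * m - 1) =>
            ((2 : ℝ) ^ (1 / (2 * (m : ℝ)))) ^ ((j : ℕ) + 1)) 0 L : ℝ) -
          (1 - 1 / (2 * (m : ℝ))) * L| ≤ ε * L) := by
  refine ⟨fun K n x hfd hK hn hx hli => ?_, fun m hm => ?_⟩
  · obtain ⟨c, hc, h⟩ := field_meas K hK x hx hli
    exact ⟨fun ε hε => two_sided hn x (normal_of_meas x hc h) ε hε, lower_field hn x hc h⟩
  · have hm0 : (0 : ℝ) < m := by exact_mod_cast hm
    set α : ℝ := (2 : ℝ) ^ (1 / (2 * (m : ℝ))) with hα
    have h1 : α ^ m = Real.sqrt 2 := by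
      rw [hα, ← Real.rpow_natCast, ← Real.rpow_mul (by norm_num), Real.sqrt_eq_rpow]
      congr 1
      field_simp
    have h2 : α ^ (2 * m) = 2 := by
      rw [mul_comm, pow_mul, h1]
      exact Real.sq_sqrt (by norm_num)
    refine ⟨h1, fun ε hε => ?_⟩
    have hdeg := degree_root (m := 2 * m) (by omega) α h2
    obtain ⟨c, hc, h⟩ := powers_meas α (2 * m - 1) (by omega)
    obtain ⟨L₀, hL₀⟩ := two_sided (by omega) _ (normal_of_meas _ hc h) ε hε
    refine ⟨L₀, fun L hL => ?_⟩
    have h3 := hL₀ L hL 2 le_rfl
    have e : ((2 * m - 1 : ℕ) : ℝ) / (((2 * m - 1 : ℕ) : ℝ) + 1) = 1 - 1 / (2 * (m : ℝ)) := by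
      rw [Nat.cast_sub (by omega)]
      push_cast
      field_simp
      ring
    rwa [e] at h3

end Pool.Agent.Results.MP_0308e6_nt.CommonRecurrenceFields
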