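import Pool.Agent.TH373.DR2.TV

set_option autoImplicit false

/-!
# The digits of `√n`, `n ≤ X`, are almost independent

Let `ρ > 0` be real and not an integer, `τ > 0`, let `h` be real analytic at `0` with `h 0 ≠ 0`,
`β` real, `p n` arbitrary integers and `x n = p n + β + n^ρ h(n^(-τ))`; for instance `x n = √n`.
Choose an integer `n ≤ X` at random.  We show that the digits of `x n` in base `b` (binary digits
for `b = 2`) at any `r ≤ c log X / log log X` different places `j ≤ A log X` are `X^(-c)`-close to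
independent uniformly distributed digits, in total variation.
-/

namespace Pool.Agent.Results.MP_0308e6_nt.DigitsIndependence

open Finset Pool.Agent.TH373.DR

/-- The `j`-th digit after the point of the real number `x` in base `b` (`j ≥ 1`), that is
`⌊x b^j⌋` modulo `b`. -/
noncomputable def digit (b : ℕ) (x : ℝ) (j : ℕ) : ℤ := ⌊x * (b : ℝ) ^ j⌋ % (b : ℤ)

/-- **Theorem.** -/
theorem result (ρ : ℝ) (hρ0 : 0 < ρ) (hρ : ∀ m : ℕ, ρ ≠ m) (τ : ℝ) (hτ : 0 < τ)
    (h : ℝ → ℝ) (hh : AnalyticAt ℝ h 0) (h0 : h 0 ≠ 0) (β : ℝ) (p : ℕ → ℤ)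
    (b : ℕ) (hb : 2 ≤ b) (A : ℝ) :
    ∃ c : ℝ, 0 < c ∧ ∃ X₀ : ℕ, ∀ X : ℕ, X₀ ≤ X → ∀ r : ℕ,
      (r : ℝ) * Real.log (Real.log X) ≤ c * Real.log X →
      ∀ pl : Fin r → ℕ, Function.Injective pl →
        (∀ k, 1 ≤ pl k ∧ (pl k : ℝ) ≤ A * Real.log X) →
        ∀ W : Finset (Fin r → Fin b), ∀ T : Finset ℕ,
          (∀ n, n ∈ T ↔ (1 ≤ n ∧ n ≤ X) ∧ ∃ w ∈ W, ∀ k,
            digit b (p n + β + (n : ℝ) ^ ρ * h ((n : ℝ) ^ (-τ))) (pl k) = ((w k : ℕ) : ℤ)) →
          |(T.card : ℝ) - X * W.card / (b : ℝ) ^ r| ≤ (X : ℝ) ^ (1 - c) := by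
  obtain ⟨s, hreg⟩ := reg_puiseux ρ τ hρ hτ h hh h0
  have hE : ((max 2 ⌈ρ⌉₊ : ℕ) : ℝ) - 2 - ρ < 0 * Real.log b := by
    rw [zero_mul]
    rcases le_total 2 ⌈ρ⌉₊ with h | h
    · rw [max_eq_right h]
      have := Nat.ceil_lt_add_one hρ0.le
      linarith
    · rw [max_eq_left h]
      push_cast
      linarith
  have hA' : 0 < max A 1 := lt_of_lt_of_le one_pos (le_max_right _ _)
  obtain ⟨c, hc, X0, hmain⟩ := indep_tv hreg b hb 1 β one_ne_zero 0 (max A 1) le_rfl hA' hE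
  refine ⟨c, hc, max X0 1, fun X hX r hr pl hinj hpl W T hT => ?_⟩
  have hX0 := (le_max_left X0 1).trans hX
  have hX1 : 1 ≤ X := (le_max_right X0 1).trans hX
  have hlog : 0 ≤ Real.log X := Real.log_nonneg (by exact_mod_cast hX1)
  refine hmain X hX0 r hr (fun k => pl k - 1) (fun k k' hkk => ?_) (fun k => ⟨?_, ?_⟩) W T
    (fun n => ?_)
  · have h1 := (hpl k).1
    have h2 := (hpl k').1
    exact hinj (by simp only at hkk; omega)
  · rw [zero_mul]; positivity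
  · have h1 : ((pl k - 1 : ℕ) : ℝ) ≤ pl k := by exact_mod_cast Nat.sub_le _ _
    exact h1.trans ((hpl k).2.trans (mul_le_mul_of_nonneg_right (le_max_left _ _) hlog))
  · rw [hT]
    apply and_congr_right
    intro _
    apply exists_congr
    intro w
    apply and_congr_right
    intro _
    unfold HasDigits
    apply forall_congr'
    intro k
    rw [dgt_eq b _ _ (hpl k).1]
    unfold digit
    have e1 : (p n : ℝ) + β + (n : ℝ) ^ ρ * h ((n : ℝ) ^ (-τ)) =
        (p n : ℝ) + (1 * ((n : ℝ) ^ (ρ - (0 : ℕ)) * GG ρ τ h 0 ((n : ℝ) ^ (-τ))) + β) := by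
      simp [GG]; ring
    rw [e1, dgt_add_int b _ _ _ (hpl k).1]

end Pool.Agent.Results.MP_0308e6_nt.DigitsIndependence
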