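import Mathlib
import Pool.Agent.TH796.AL.Final

set_option autoImplicit false

/-!
# Numbers of low complexity do not generate algebraic numbers

The field generated by all real numbers whose expansions in integer bases have linear block
complexity contains neither `√2` nor any other irrational algebraic number.
-/

namespace Pool.Agent.Results.MP_0308e6_nt.LowComplexityFields

/-- the number of different blocks of length `n` in the sequence `w` -/
noncomputable def complexity {α : Type} (w : ℕ → α) (n : ℕ) : ℕ :=
  (Set.range fun i => fun j : Fin n => w (i + j)).ncard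

/-- the digit of index `n + 1` after the point in the base `b` expansion of `x` -/
noncomputable def digit (b : ℕ) (x : ℝ) (n : ℕ) : ℤ := ⌊x * (b : ℝ) ^ (n + 1)⌋ % (b : ℤ)

/-- Let `K` be a field of real algebraic numbers and `y` a real algebraic number which is not in `K`
(for instance `K = ℚ` and `y = √2`).

(1) `y` is not in the field generated over `K` by all real numbers which have at most `C n` different
blocks of `n` digits in some base `b`, for all `n ≥ 1`, where `b` and `C` may depend on the number.

(2) If `y` is in the field `K(x_1, …, x_k)` then for every `C` and every large `n` one of the `x_i` has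
more than `C n` different blocks of `n` digits in the base `b_i`, for any bases `b_i`.

(3) The same holds for the sums `x_i` of the series `∑ γ_i(w_i(0)) ⋯ γ_i(w_i(n-1)) c_i(w_i(n))` and the
complexity of the sequences `w_i`, where `w_i` has values in a finite set, the ratios `γ_i` are nonzero
rational numbers of absolute value less than `1` and the coefficients `c_i` are in `K`.

(4) If `y` is irrational then for every base `b` and `r ≥ 1`, for every `C` and every large `n`, one of
the `r` sequences of the digits of `y` at the places in a residue class modulo `r` has more than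
`C n` different blocks of length `n`. -/
theorem result (K : Subfield ℝ) (hK : ∀ a ∈ K, IsAlgebraic ℚ a) (y : ℝ) (hy : IsAlgebraic ℚ y)
    (hyK : y ∉ K) :
    (y ∉ Subfield.closure ((K : Set ℝ) ∪ {x | ∃ b ≥ 2, ∃ C : ℝ, ∀ n ≥ 1,
      (complexity (digit b x) n : ℝ) ≤ C * n})) ∧
    (∀ (k : ℕ) (b : Fin k → ℕ) (x : Fin k → ℝ), (∀ i, 2 ≤ b i) →
      y ∈ Subfield.closure ((K : Set ℝ) ∪ Set.range x) →
      ∀ C : ℝ, ∃ n₀ : ℕ, ∀ n ≥ n₀, ∃ i, C * n < complexity (digit (b i) (x i)) n) ∧
    (∀ (k : ℕ) (α : Fin k → Type) (γ : ∀ i, α i → ℚ) (c : ∀ i, α i → ℝ) (w : ∀ i, ℕ → α i)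
      (x : Fin k → ℝ), (∀ i, Finite (α i)) → (∀ i a, γ i a ≠ 0 ∧ |γ i a| < 1) →
      (∀ i a, c i a ∈ K) →
      (∀ i, HasSum (fun n => (∏ j ∈ Finset.range n, (γ i (w i j) : ℝ)) * c i (w i n)) (x i)) →
      y ∈ Subfield.closure ((K : Set ℝ) ∪ Set.range x) →
      ∀ C : ℝ, ∃ n₀ : ℕ, ∀ n ≥ n₀, ∃ i, C * n < complexity (w i) n) ∧
    (Irrational y → ∀ b ≥ 2, ∀ r ≥ 1, ∀ C : ℝ, ∃ n₀ : ℕ, ∀ n ≥ n₀, ∃ j < r,
      C * n < complexity (fun m => digit b y (r * m + j)) n) := by
  refine ⟨fun h => hyK (Pool.Agent.TH796.AL.Final.all_thm K hK y hy h),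
    fun k b x hb hyx C => Pool.Agent.TH796.AL.Final.digit_thm K hK y hy hyK b x hb hyx C,
    fun k α γ c w x hα hγ hc hx hyx C =>
      Pool.Agent.TH796.AL.Final.addr_thm K hK y hy hyK α γ c w x hα hγ hc hx hyx C,
    fun hirr b hb r hr C => Pool.Agent.TH796.AL.Final.residue_thm y hy hirr hb hr C⟩

end Pool.Agent.Results.MP_0308e6_nt.LowComplexityFields
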