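import Pool.Agent.TH265.RB.Quad

/-!
# The number of zeros and of ones among the binary digits of `√2`

No hypothesis is assumed.  At least `(3 / 2) √n` of the first `n` binary digits of `√2` are zeros
and at least `(3 / 2) √n` are ones, for all large `n`.  More generally, for every real quadratic
irrational `ξ` with `A ξ² + B ξ + C = 0`, `A > 0`, and every base `b`, the sum of the first `n`
digits `c_k` and the sum of the first `n` complementary digits `b - 1 - c_k` are both at least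
`√(9 (b - 1) gcd(b, 2 A) n / (8 A))`, for all large `n`.
-/

set_option autoImplicit false

open Finset

namespace Pool.Agent.Results.MP_0308e6_nt.ThreeHalves

/-- the `k`-th digit of `ξ` after the point in base `b` -/
noncomputable def digit (b : ℕ) (ξ : ℝ) (k : ℕ) : ℤ := ⌊ξ * (b : ℝ) ^ k⌋ % (b : ℤ)

lemma digit_nonneg {b : ℕ} (hb : 2 ≤ b) (ξ : ℝ) (k : ℕ) : 0 ≤ digit b ξ k :=
  Int.emod_nonneg _ (by exact_mod_cast (by omega : b ≠ 0))

lemma digit_neg {b : ℕ} (hb : 2 ≤ b) {ξ : ℝ} (hirr : Irrational ξ) (k : ℕ) :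
    digit b (-ξ) k = b - 1 - digit b ξ k := by
  unfold digit
  have h1 : ⌊-ξ * (b : ℝ) ^ k⌋ = -⌊ξ * (b : ℝ) ^ k⌋ - 1 := by
    have h2 : Irrational (ξ * ((b ^ k : ℕ) : ℝ)) := hirr.mul_natCast (by positivity)
    have h3 : ξ * (b : ℝ) ^ k = ξ * ((b ^ k : ℕ) : ℝ) := by push_cast; rfl
    rw [neg_mul, h3]
    set z : ℝ := ξ * ((b ^ k : ℕ) : ℝ) with hz
    rw [Int.floor_eq_iff]
    push_cast
    have h4 := Int.floor_le z
    have h5 := Int.lt_floor_add_one z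
    have h6 : (⌊z⌋ : ℝ) ≠ z := fun h => h2 ⟨(⌊z⌋ : ℚ), by push_cast; exact h⟩
    have h7 : (⌊z⌋ : ℝ) < z := lt_of_le_of_ne h4 h6
    constructor <;> linarith
  rw [h1]
  set m := ⌊ξ * (b : ℝ) ^ k⌋
  have hb' : (0 : ℤ) < b := by exact_mod_cast (by omega : 0 < b)
  have h8 := Int.emod_add_mul_ediv m b
  have h9 := Int.emod_nonneg m hb'.ne'
  have h10 := Int.emod_lt_of_pos m hb'
  have h11 : -m - 1 = (b - 1 - m % b) + b * (-(m / b) - 1) := by linarith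
  rw [h11, Int.add_mul_emod_self_left]
  exact Int.emod_eq_of_lt (by omega) (by omega)

theorem one {b : ℕ} (hb : 2 ≤ b) {A B C : ℤ} (hA : 0 < A) {ξ : ℝ} (hirr : Irrational ξ)
    (hq : (A : ℝ) * ξ ^ 2 + B * ξ + C = 0) :
    ∃ n₀ : ℕ, ∀ n : ℕ, n₀ ≤ n →
      Real.sqrt (9 * ((b : ℝ) - 1) * (Int.gcd b (2 * A) : ℕ) / (8 * A) * n) ≤
        ((∑ k ∈ Icc 1 n, digit b ξ k : ℤ) : ℝ) := by
  have hsum : ∀ (η : ℝ) (n : ℕ), ∑ k ∈ range n, ⌊η * (b : ℝ) ^ (k + 1)⌋ % (b : ℤ) =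
      ∑ k ∈ Icc 1 n, digit b η k := by
    intro η n
    induction n with
    | zero => simp
    | succ n ih =>
      rw [sum_range_succ, Finset.sum_Icc_succ_top (by omega), ih]
      rfl
  obtain ⟨n1, h1⟩ := Pool.Agent.TH265.RB.quad_real6 hb hA hirr hq
  refine ⟨n1, fun n hn => ?_⟩
  have h2 := h1 n hn
  rw [hsum] at h2
  have h3 : (0 : ℝ) ≤ ((∑ k ∈ Icc 1 n, digit b ξ k : ℤ) : ℝ) := by
    exact_mod_cast sum_nonneg fun k _ => digit_nonneg hb ξ k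
  rw [Real.sqrt_le_left h3]
  refine le_trans (le_of_eq ?_) h2
  have hAR : (0 : ℝ) < A := by exact_mod_cast hA
  field_simp

theorem both {b : ℕ} (hb : 2 ≤ b) {A B C : ℤ} (hA : 0 < A) {ξ : ℝ} (hirr : Irrational ξ)
    (hq : (A : ℝ) * ξ ^ 2 + B * ξ + C = 0) :
    ∃ n₀ : ℕ, ∀ n : ℕ, n₀ ≤ n →
      Real.sqrt (9 * ((b : ℝ) - 1) * (Int.gcd b (2 * A) : ℕ) / (8 * A) * n) ≤
        ((∑ k ∈ Icc 1 n, digit b ξ k : ℤ) : ℝ) ∧
      Real.sqrt (9 * ((b : ℝ) - 1) * (Int.gcd b (2 * A) : ℕ) / (8 * A) * n) ≤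
        ((∑ k ∈ Icc 1 n, (b - 1 - digit b ξ k) : ℤ) : ℝ) := by
  obtain ⟨n1, h1⟩ := one hb hA hirr hq
  obtain ⟨n2, h2⟩ := one hb (A := A) (B := -B) (C := C) hA hirr.neg (by push_cast; linarith)
  refine ⟨max n1 n2, fun n hn => ⟨h1 n ((le_max_left _ _).trans hn), ?_⟩⟩
  have := h2 n ((le_max_right _ _).trans hn)
  simpa only [digit_neg hb hirr] using this

/-- The result. -/
theorem result :
    (∃ n₀ : ℕ, ∀ n : ℕ, n₀ ≤ n →
      3 / 2 * Real.sqrt n ≤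
        (((Icc 1 n).filter (fun k => digit 2 (Real.sqrt 2) k = 0)).card : ℝ) ∧
      3 / 2 * Real.sqrt n ≤
        (((Icc 1 n).filter (fun k => digit 2 (Real.sqrt 2) k = 1)).card : ℝ)) ∧
    (∀ b : ℕ, 2 ≤ b → ∀ A B C : ℤ, 0 < A → ∀ ξ : ℝ, Irrational ξ →
      (A : ℝ) * ξ ^ 2 + B * ξ + C = 0 → ∃ n₀ : ℕ, ∀ n : ℕ, n₀ ≤ n →
        Real.sqrt (9 * ((b : ℝ) - 1) * (Int.gcd b (2 * A) : ℕ) / (8 * A) * n) ≤
          ((∑ k ∈ Icc 1 n, digit b ξ k : ℤ) : ℝ) ∧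
        Real.sqrt (9 * ((b : ℝ) - 1) * (Int.gcd b (2 * A) : ℕ) / (8 * A) * n) ≤
          ((∑ k ∈ Icc 1 n, (b - 1 - digit b ξ k) : ℤ) : ℝ)) := by
  refine ⟨?_, fun b hb A B C hA ξ hξ hq => both hb hA hξ hq⟩
  obtain ⟨n0, h⟩ := both (b := 2) le_rfl (A := 1) (B := 0) (C := -2) one_pos
    (ξ := Real.sqrt 2) irrational_sqrt_two (by
      push_cast
      rw [Real.sq_sqrt (by norm_num)]; norm_num)
  have hc : ∀ n : ℕ, Real.sqrt (9 * (((2 : ℕ) : ℝ) - 1) * (Int.gcd (2 : ℕ) (2 * 1) : ℕ) /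
      (8 * ((1 : ℤ) : ℝ)) * n) = 3 / 2 * Real.sqrt n := by
    intro n
    have e1 : Int.gcd (2 : ℕ) (2 * 1) = 2 := by decide
    rw [e1]
    have e2 : (9 * (((2 : ℕ) : ℝ) - 1) * ((2 : ℕ) : ℝ) / (8 * ((1 : ℤ) : ℝ)) * n) =
        (3 / 2) ^ 2 * (n : ℝ) := by
      push_cast
      ring
    rw [e2, Real.sqrt_mul (by positivity), Real.sqrt_sq (by norm_num)]
  have hd : ∀ k, digit 2 (Real.sqrt 2) k = 0 ∨ digit 2 (Real.sqrt 2) k = 1 := by
    intro k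
    unfold digit
    push_cast
    omega
  refine ⟨n0, fun n hn => ⟨?_, ?_⟩⟩
  · have h2 := (h n hn).2
    rw [hc] at h2
    refine h2.trans (le_of_eq ?_)
    rw [card_filter]
    push_cast
    refine sum_congr rfl fun k _ => ?_
    rcases hd k with h3 | h3 <;> rw [h3] <;> norm_num
  · have h1 := (h n hn).1
    rw [hc] at h1
    refine h1.trans (le_of_eq ?_)
    rw [card_filter]
    push_cast
    refine sum_congr rfl fun k _ => ?_
    rcases hd k with h3 | h3 <;> rw [h3] <;> norm_num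

end Pool.Agent.Results.MP_0308e6_nt.ThreeHalves
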